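import Pool.Agent.Helper36.CV.StmtsK

/-!
# K7: the end points are in the spectrum and bound it in the band
-/

set_option autoImplicit false

namespace Pool.Agent.Helper36.CV

open Filter Topology

theorem k7_XX (l x : ℝ) : ∀ n : ℕ, XX (l : ℂ) n (x : ℂ) = ((X l n x : ℝ) : ℂ)
  | 0 => by simp [XX, X]
  | 1 => by simp [XX, X]
  | 2 => by simp [XX, X]
  | (n + 3) => by
    have h0 := k7_XX l x n
    have h1 := k7_XX l x (n + 1)
    have h2 := k7_XX l x (n + 2)
    simp only [XX, X, h0, h1, h2]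
    push_cast
    ring

theorem k7_om {L0 l : ℝ} (h1 : 100 ≤ L0) (h : L0 < l) : (l : ℂ) ∈ Om2 L0 := by
  have hl : 0 < l := by linarith
  have hn : ‖(l : ℂ)‖ = l := by rw [Complex.norm_real, Real.norm_of_nonneg hl.le]
  refine ⟨by rw [hn]; exact h, ?_⟩
  rw [hn, Complex.ofReal_re]
  linarith

theorem k7_dom {L0 l : ℝ} (h1 : 100 ≤ L0) (h : L0 < l) {z : ℂ} (hz : ‖z‖ < 2) :
    ((l : ℂ), z) ∈ Dom L0 := ⟨k7_om h1 h, hz⟩

theorem k7_domr {L0 l : ℝ} (h1 : 100 ≤ L0) (h : L0 < l) {z : ℝ} (hz : |z| ≤ 1) :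
    ((l : ℂ), (z : ℂ)) ∈ Dom L0 := by
  refine k7_dom h1 h ?_
  rw [Complex.norm_real, Real.norm_eq_abs]
  linarith

theorem k7_norm {l : ℝ} (hl : 0 < l) : ‖(l : ℂ)‖ = l := by
  rw [Complex.norm_real, Real.norm_of_nonneg hl.le]

theorem k7_slice {L0 l : ℝ} {f : ℂ → ℂ → ℂ} (h1 : 100 ≤ L0) (h : L0 < l)
    (hf : DifferentiableOn ℂ (fun p : ℂ × ℂ => f p.1 p.2) (Dom L0)) :
    DifferentiableOn ℂ (f l) (Metric.ball 0 2) := by
  have hg : DifferentiableOn ℂ (fun y : ℂ => ((l : ℂ), y)) (Metric.ball 0 2) :=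
    (differentiable_const _).differentiableOn.prodMk differentiable_id.differentiableOn
  have hm : Set.MapsTo (fun y : ℂ => ((l : ℂ), y)) (Metric.ball 0 2) (Dom L0) := by
    intro y hy
    refine k7_dom h1 h ?_
    simpa using hy
  exact hf.comp hg hm

theorem k7_at {f : ℂ → ℂ} (hf : DifferentiableOn ℂ f (Metric.ball 0 2)) {z : ℂ} (hz : ‖z‖ < 2) :
    DifferentiableAt ℂ f z :=
  hf.differentiableAt (Metric.isOpen_ball.mem_nhds (by simpa using hz))

/-- strict monotonicity -/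
theorem k7_mono {L0 l : ℝ} {k : ℕ} {o s : ℝ} {u E : ℂ → ℂ → ℂ} (hP : Pre L0 k o s u E)
    (h1 : 100 ≤ L0) (h : L0 < l) {z z' : ℝ} (hz : |z| ≤ 1) (hz' : |z'| ≤ 1) (hzz : z < z') :
    0 < o * ((E l z').re - (E l z).re) := by
  have hl : 0 < l := by linarith
  have hE := k7_slice h1 h hP.an_E
  set D0 := deriv (E l) 0 with hD0
  have hD0n : D0 ≠ 0 := hP.dE0 l 0 (k7_dom h1 h (by simp))
  set g : ℂ → ℂ := fun y => E l y - D0 * y with hg
  have hgd : ∀ y ∈ Metric.closedBall (0 : ℂ) 1, HasDerivAt g (deriv (E l) y - D0) y := by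
    intro y hy
    have hy' : ‖y‖ < 2 := by
      have : ‖y‖ ≤ 1 := by simpa using hy
      linarith
    have h2 : HasDerivAt (E l) (deriv (E l) y) y := (k7_at hE hy').hasDerivAt
    have h3 : HasDerivAt (fun y : ℂ => D0 * y) D0 y := by
      simpa using (hasDerivAt_id y).const_mul D0
    exact h2.sub h3
  have hb : ∀ y ∈ Metric.closedBall (0 : ℂ) 1, ‖deriv g y‖ ≤ ‖D0‖ / 10 := by
    intro y hy
    rw [(hgd y hy).deriv]
    have hy' : ‖y‖ < 2 := by
      have : ‖y‖ ≤ 1 := by simpa using hy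
      linarith
    have h2 := hP.dE l y (k7_dom h1 h hy')
    rw [k7_norm hl] at h2
    have h3 : deriv (E l) y - D0 = D0 * (deriv (E l) y / D0 - 1) := by
      field_simp
    rw [h3, norm_mul]
    have h4 : 10 / l ≤ 1 / 10 := by
      rw [div_le_div_iff₀ hl (by norm_num)]
      linarith
    have h5 : ‖deriv (E l) y / D0 - 1‖ ≤ 1 / 10 := le_trans h2 h4
    calc ‖D0‖ * ‖deriv (E l) y / D0 - 1‖ ≤ ‖D0‖ * (1 / 10) :=
          mul_le_mul_of_nonneg_left h5 (norm_nonneg _)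
      _ = ‖D0‖ / 10 := by ring
  have hin : ∀ y : ℝ, |y| ≤ 1 → (y : ℂ) ∈ Metric.closedBall (0 : ℂ) 1 := by
    intro y hy
    simp only [Metric.mem_closedBall, dist_zero_right, Complex.norm_real, Real.norm_eq_abs]
    exact hy
  have hmv := (convex_closedBall (0 : ℂ) 1).norm_image_sub_le_of_norm_deriv_le
    (fun y hy => (hgd y hy).differentiableAt) hb (hin z hz) (hin z' hz')
  have hdz : ‖((z' : ℂ) - (z : ℂ))‖ = z' - z := by
    rw [← Complex.ofReal_sub, Complex.norm_real, Real.norm_of_nonneg (by linarith)]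
  rw [hdz] at hmv
  set W : ℂ := g z' - g z with hW
  have hdiff : E l z' - E l z = D0 * ((z' - z : ℝ) : ℂ) + W := by
    rw [hW, hg]
    push_cast
    ring
  have him : (E l z').im - (E l z).im = D0.im * (z' - z) + W.im := by
    have := congrArg Complex.im hdiff
    simpa using this
  have hre : (E l z').re - (E l z).re = D0.re * (z' - z) + W.re := by
    have := congrArg Complex.re hdiff
    simpa using this
  have e1 := hP.re_E l z (k7_domr h1 h hz)
  have e2 := hP.re_E l z' (k7_domr h1 h hz')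
  rw [e1, e2] at him
  have hWim := Complex.abs_im_le_norm W
  have hWre := Complex.abs_re_le_norm W
  have hdpos : 0 < z' - z := by linarith
  have h6 : |D0.im| * (z' - z) ≤ ‖D0‖ / 10 * (z' - z) := by
    have : |D0.im| * (z' - z) = |W.im| := by
      have h7 : W.im = -(D0.im * (z' - z)) := by linarith
      rw [h7, abs_neg, abs_mul, abs_of_pos hdpos]
    rw [this]
    exact le_trans hWim hmv
  have h8 : |D0.im| ≤ ‖D0‖ / 10 := le_of_mul_le_mul_right h6 hdpos
  have h9 : ‖D0‖ ≤ |D0.re| + |D0.im| := Complex.norm_le_abs_re_add_abs_im D0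
  have hsg := hP.sg l (k7_om h1 h)
  rw [← hD0] at hsg
  have h10 : |D0.re| = o * D0.re := by
    rcases hP.oo with ho | ho
    · rw [ho, one_mul] at hsg ⊢
      exact abs_of_pos hsg
    · rw [ho] at hsg ⊢
      have : D0.re < 0 := by linarith
      rw [abs_of_neg this]; ring
  have hDpos : 0 < ‖D0‖ := norm_pos_iff.mpr hD0n
  have hWo : -|W.re| ≤ o * W.re := by
    rcases hP.oo with ho | ho
    · rw [ho, one_mul]; exact neg_abs_le _
    · rw [ho]
      have := le_abs_self W.re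
      linarith
  rw [hre]
  have h11 : o * (D0.re * (z' - z) + W.re) = (o * D0.re) * (z' - z) + o * W.re := by ring
  rw [h11]
  have h12 : |W.re| ≤ ‖D0‖ / 10 * (z' - z) := le_trans hWre hmv
  have h13 : ‖D0‖ * (9 / 10) ≤ o * D0.re := by linarith
  have h14 : ‖D0‖ * (9 / 10) * (z' - z) ≤ (o * D0.re) * (z' - z) :=
    mul_le_mul_of_nonneg_right h13 hdpos.le
  have h15 : 0 < ‖D0‖ * (z' - z) := mul_pos hDpos hdpos
  nlinarith

/-- contraction -/
theorem k7_lip {l : ℝ} (hl : 100 ≤ l) {f : ℂ → ℂ} (hf : DifferentiableOn ℂ f (Metric.ball 0 2))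
    {a : ℂ} (hb : ∀ z : ℂ, ‖z‖ < 2 → ‖f z - a‖ ≤ 4 / l) {z z' : ℂ} (hz : ‖z‖ ≤ 1) (hz' : ‖z'‖ ≤ 1) :
    ‖f z' - f z‖ ≤ 1 / 2 * ‖z' - z‖ := by
  have hlp : 0 < l := by linarith
  have hd : ∀ y ∈ Metric.closedBall (0 : ℂ) 1, DifferentiableAt ℂ f y := by
    intro y hy
    have : ‖y‖ ≤ 1 := by simpa using hy
    exact k7_at hf (by linarith)
  have hder : ∀ y ∈ Metric.closedBall (0 : ℂ) 1, ‖deriv f y‖ ≤ 1 / 2 := by
    intro y hy
    have hy1 : ‖y‖ ≤ 1 := by simpa using hy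
    have hsub : Metric.closedBall y (1 / 2) ⊆ Metric.ball (0 : ℂ) 2 := by
      intro t ht
      have h1 : ‖t - y‖ ≤ 1 / 2 := by simpa [dist_eq_norm] using ht
      have h2 : ‖t‖ ≤ ‖t - y‖ + ‖y‖ := by
        calc ‖t‖ = ‖(t - y) + y‖ := by rw [sub_add_cancel]
          _ ≤ _ := norm_add_le _ _
      simp only [Metric.mem_ball, dist_zero_right]
      linarith
    have hg : DiffContOnCl ℂ (fun t => f t - a) (Metric.ball y (1 / 2)) := by
      have h3 : DifferentiableOn ℂ (fun t => f t - a) (Metric.ball 0 2) := hf.sub_const a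
      refine DifferentiableOn.diffContOnCl ?_
      exact h3.mono (subset_trans Metric.closure_ball_subset_closedBall hsub)
    have h4 := Complex.norm_deriv_le_of_forall_mem_sphere_norm_le (by norm_num : (0 : ℝ) < 1 / 2) hg
      (C := 4 / l) (by
        intro t ht
        refine hb t ?_
        have := hsub (Metric.sphere_subset_closedBall ht)
        simpa using this)
    have h5 : deriv (fun t => f t - a) y = deriv f y := deriv_sub_const ..
    rw [h5] at h4
    refine le_trans h4 ?_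
    have h6 : 4 / l ≤ 1 / 25 := by
      rw [div_le_div_iff₀ hlp (by norm_num)]
      linarith
    have h7 : 4 / l / (1 / 2) = 2 * (4 / l) := by ring
    rw [h7]
    linarith
  exact (convex_closedBall (0 : ℂ) 1).norm_image_sub_le_of_norm_deriv_le hd hder
    (by simpa using hz) (by simpa using hz')

theorem k7_small {l : ℝ} (hl : 100 ≤ l) : 4 / l ≤ 1 / 25 := by
  have hlp : 0 < l := by linarith
  rw [div_le_div_iff₀ hlp (by norm_num)]
  linarith

section

variable {c c' L0 l : ℝ}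

/-- coordinates of the children -/
theorem k7_zz (T : Tree c L0) (h1 : 100 ≤ L0) (h : L0 < l) (i : Fin 3) (w : Wd) {z : ℂ}
    (hz : ‖z‖ < 2) :
    ‖T.zz i w l z - ((T.oo w * ((((i : ℕ) : ℝ) - 1) / 2) : ℝ) : ℂ)‖ ≤ 4 / l := by
  have hlp : 0 < l := by linarith
  have hd := k7_dom h1 h hz
  fin_cases i
  · have h2 := (T.ch0 w).z2 l z hd
    rw [k7_norm hlp] at h2
    refine le_trans (le_of_eq ?_) h2
    congr 1
    push_cast
    simp
    ring
  · have h2 := (T.ch1 w).z2 l z hd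
    rw [k7_norm hlp] at h2
    refine le_trans (le_of_eq ?_) h2
    congr 1
    push_cast
    simp
  · have h2 := (T.ch2 w).z2 l z hd
    rw [k7_norm hlp] at h2
    refine le_trans (le_of_eq ?_) h2
    congr 1
    push_cast
    simp
    ring

theorem k7_oabs (T : Tree c L0) (w : Wd) : |T.oo w| = 1 := by
  rcases (T.sta w).oo with h | h <;> rw [h] <;> norm_num

theorem k7_zn (T : Tree c L0) (h1 : 100 ≤ L0) (h : L0 < l) (i : Fin 3) (w : Wd) {z : ℂ}
    (hz : ‖z‖ < 2) : ‖T.zz i w l z‖ ≤ 3 / 4 := by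
  have h2 := k7_zz T h1 h i w hz
  have h3 := k7_small (l := l) (by linarith)
  have h4 : ‖((T.oo w * ((((i : ℕ) : ℝ) - 1) / 2) : ℝ) : ℂ)‖ ≤ 1 / 2 := by
    rw [Complex.norm_real, Real.norm_eq_abs, abs_mul, k7_oabs, one_mul]
    fin_cases i <;> norm_num
  have h5 : ‖T.zz i w l z‖ ≤ ‖T.zz i w l z - ((T.oo w * ((((i : ℕ) : ℝ) - 1) / 2) : ℝ) : ℂ)‖ +
      ‖((T.oo w * ((((i : ℕ) : ℝ) - 1) / 2) : ℝ) : ℂ)‖ := by
    calc ‖T.zz i w l z‖ = ‖(T.zz i w l z - ((T.oo w * ((((i : ℕ) : ℝ) - 1) / 2) : ℝ) : ℂ)) +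
        ((T.oo w * ((((i : ℕ) : ℝ) - 1) / 2) : ℝ) : ℂ)‖ := by rw [sub_add_cancel]
      _ ≤ _ := norm_add_le _ _
  linarith

theorem k7_X2 (T : Tree c L0) (h1 : 100 ≤ L0) (h : L0 < l) (w : Wd) {x z : ℝ} (hz : |z| ≤ 1)
    (hx : (x : ℂ) = T.EE w l z) : X l (T.kk w + 2) x = z := by
  have hd := k7_domr h1 h hz
  have e1 := (T.sta w).t2 l z hd
  rw [← hx, k7_XX] at e1
  exact_mod_cast e1

theorem k7_X0 (T : Tree c L0) (h1 : 100 ≤ L0) (h : L0 < l) (hc : 2 * c ≤ l) (w : Wd) {x z : ℝ}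
    (hz : |z| ≤ 1) (hx : (x : ℂ) = T.EE w l z) : |X l (T.kk w) x| ≤ 1 := by
  have hlp : 0 < l := by linarith
  have hd := k7_domr h1 h hz
  have e1 := (T.sta w).t0 l z hd
  rw [← hx, k7_XX] at e1
  have e2 := (T.sta w).u1 l z hd
  rw [← e1, k7_norm hlp] at e2
  have e3 : ((X l (T.kk w) x : ℝ) : ℂ) - (ty w : ℂ) * (T.ss w : ℂ) * (T.oo w : ℂ) / 2 =
      ((X l (T.kk w) x - ty w * T.ss w * T.oo w / 2 : ℝ) : ℂ) := by
    push_cast; ring
  rw [e3, Complex.norm_real, Real.norm_eq_abs] at e2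
  have e4 : c / l ≤ 1 / 2 := by
    rw [div_le_div_iff₀ hlp (by norm_num)]
    linarith
  have e5 : |ty w * T.ss w * T.oo w / 2| ≤ 1 / 2 := by
    rcases (T.sta w).tt with ht | ht | ht <;> rcases (T.sta w).ss with hs | hs <;>
      rcases (T.sta w).oo with ho | ho <;> rw [ht, hs, ho] <;> norm_num
  rw [abs_le] at *
  constructor <;> linarith [e2.1, e2.2, e5.1, e5.2]

theorem k7_par (T : Tree c L0) (h1 : 100 ≤ L0) (h : L0 < l) (i : Fin 3) (w : Wd) {x z : ℝ}
    (hz : |z| ≤ 1) (hx : (x : ℂ) = T.EE (ch i w) l z) :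
    ∃ z' : ℝ, |z'| ≤ 3 / 4 ∧ (z' : ℂ) = T.zz i w l z ∧ (x : ℂ) = T.EE w l z' := by
  have hzn : ‖(z : ℂ)‖ < 2 := by
    rw [Complex.norm_real, Real.norm_eq_abs]; linarith
  have h2 := k7_zn T h1 h i w hzn
  rw [T.E0 i w] at hx
  change (x : ℂ) = T.EE w l (T.zz i w l z) at hx
  have h3 := (T.sta w).t2 l (T.zz i w l z) (k7_dom h1 h (by linarith))
  rw [← hx, k7_XX] at h3
  refine ⟨X l (T.kk w + 2) x, ?_, h3, ?_⟩
  · rw [← h3, Complex.norm_real, Real.norm_eq_abs] at h2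
    exact h2
  · rw [h3]; exact hx

/-- the history of a band -/
theorem k7_hist (T : Tree c L0) (h1 : 100 ≤ L0) (h : L0 < l) (hc : 2 * c ≤ l) (r : Fin 4) :
    ∀ (L : List (Fin 3)) (z x : ℝ), |z| ≤ 1 → (x : ℂ) = T.EE (r, L) l z →
      ∀ n ≤ T.kk (r, L) + 1, |X l n x| ≤ 1 ∨ |X l (n + 1) x| ≤ 1 := by
  have hX0 : ∀ x, |X l 0 x| ≤ 1 := by intro x; simp [X]
  intro L
  induction L with
  | nil =>
    intro z x hz hx n hn
    have hk := k7_X0 T h1 h hc (r, []) hz hx
    have hk2 : |X l (T.kk (r, []) + 2) x| ≤ 1 := by rw [k7_X2 T h1 h _ hz hx]; exact hz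
    fin_cases r
    · have hkk : T.kk (0, []) = 1 := T.r0k
      change |X l (T.kk (0, [])) x| ≤ 1 at hk
      change |X l (T.kk (0, []) + 2) x| ≤ 1 at hk2
      change n ≤ T.kk (0, []) + 1 at hn
      rw [hkk] at hk hk2 hn
      interval_cases n
      · exact Or.inl (hX0 x)
      · exact Or.inl hk
      · exact Or.inr hk2
    · have hkk : T.kk (1, []) = 2 := T.r1k.1
      change |X l (T.kk (1, [])) x| ≤ 1 at hk
      change |X l (T.kk (1, []) + 2) x| ≤ 1 at hk2
      change n ≤ T.kk (1, []) + 1 at hn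
      rw [hkk] at hk hk2 hn
      interval_cases n
      · exact Or.inl (hX0 x)
      · exact Or.inr hk
      · exact Or.inl hk
      · exact Or.inr hk2
    · have hkk : T.kk (2, []) = 3 := T.r2k.1
      change |X l (T.kk (2, [])) x| ≤ 1 at hk
      change |X l (T.kk (2, []) + 2) x| ≤ 1 at hk2
      change n ≤ T.kk (2, []) + 1 at hn
      change (x : ℂ) = T.EE (2, []) l z at hx
      rw [hkk] at hk hk2 hn
      have hzn : ‖(z : ℂ)‖ < 2 := by
        rw [Complex.norm_real, Real.norm_eq_abs]; linarith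
      have h2 : |X l 2 x| ≤ 1 := by
        have h3 := T.r2.z2 l z (k7_dom h1 h hzn)
        rw [T.r2E] at hx
        have h4 : ((X l 2 x : ℝ) : ℂ) = T.ζ2 l z := by
          rw [← k7_XX, hx]
          simp [XX]
        have hnl : ‖(l : ℂ)‖ = l := k7_norm (by linarith)
        rw [← h4, hnl, Complex.norm_real, Real.norm_eq_abs] at h3
        have := k7_small (l := l) (by linarith)
        linarith
      interval_cases n
      · exact Or.inl (hX0 x)
      · exact Or.inr h2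
      · exact Or.inl h2
      · exact Or.inl hk
      · exact Or.inr hk2
    · have hkk : T.kk (3, []) = 2 := T.r3k.1
      change |X l (T.kk (3, [])) x| ≤ 1 at hk
      change |X l (T.kk (3, []) + 2) x| ≤ 1 at hk2
      change n ≤ T.kk (3, []) + 1 at hn
      rw [hkk] at hk hk2 hn
      interval_cases n
      · exact Or.inl (hX0 x)
      · exact Or.inr hk
      · exact Or.inl hk
      · exact Or.inr hk2
  | cons i L ih =>
    intro z x hz hx n hn
    have hw : (r, i :: L) = ch i (r, L) := rfl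
    rw [hw] at hx hn
    obtain ⟨z', hz', hzz, hx'⟩ := k7_par T h1 h i (r, L) hz hx
    have hk := k7_X0 T h1 h hc (ch i (r, L)) hz hx
    have hk2 : |X l (T.kk (ch i (r, L)) + 2) x| ≤ 1 := by
      rw [k7_X2 T h1 h _ hz hx]; exact hz
    have hk3 : |X l (T.kk (r, L) + 2) x| ≤ 1 := by
      rw [k7_X2 T h1 h _ (by linarith) hx']; linarith
    rw [T.k0 i (r, L)] at hk hk2 hn
    rcases Nat.lt_or_ge (T.kk (r, L) + 1) n with hlt | hge
    · by_cases hi : i = 1
      · rw [if_pos hi] at hk hk2 hn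
        have hn3 : n = T.kk (r, L) + 2 ∨ n = T.kk (r, L) + 3 ∨ n = T.kk (r, L) + 4 := by omega
        rcases hn3 with rfl | rfl | rfl
        · exact Or.inl hk3
        · exact Or.inl hk
        · exact Or.inr hk2
      · rw [if_neg hi] at hk hk2 hn
        have hn3 : n = T.kk (r, L) + 2 ∨ n = T.kk (r, L) + 3 := by omega
        rcases hn3 with rfl | rfl
        · exact Or.inl hk3
        · exact Or.inr hk2
    · exact ih z' x (by linarith) hx' n hge

/-- the end points, general form: `j = 0` and `ε = 1`, or `j = 2` and `ε = -1` -/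
structure k7_End (T : Tree c L0) (l : ℝ) (j : Fin 3) (ε : ℝ) (ze : Wd → ℝ) : Prop where
  jj : (j = 0 ∧ ε = 1) ∨ (j = 2 ∧ ε = -1)
  ab : ∀ w, |ze w| ≤ 3 / 4
  eq : ∀ w, (ze w : ℂ) = T.zz j w l (ze (ch j w))
  lip : ∀ w, ∀ z z' : ℝ, |z| ≤ 1 → |z'| ≤ 1 →
    ‖T.zz j w l z' - T.zz j w l z‖ ≤ 1 / 2 * |z' - z|

theorem k7_end_eq (T : Tree c L0) {j : Fin 3} {ε : ℝ} {ze : Wd → ℝ} (hE : k7_End T l j ε ze)
    (w : Wd) : T.EE (ch j w) l (ze (ch j w)) = T.EE w l (ze w) := by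
  rw [T.E0 j w, hE.eq w]

theorem k7_end_iter (T : Tree c L0) {j : Fin 3} {ε : ℝ} {ze : Wd → ℝ} (hE : k7_End T l j ε ze)
    (m : ℕ) (w : Wd) : ∃ w' : Wd, T.EE w' l (ze w') = T.EE w l (ze w) ∧ T.kk w + m ≤ T.kk w' := by
  induction m generalizing w with
  | zero => exact ⟨w, rfl, le_of_eq (add_zero _)⟩
  | succ m ih =>
    obtain ⟨w', h1, h2⟩ := ih (ch j w)
    refine ⟨w', h1.trans (k7_end_eq T hE w), ?_⟩
    rw [T.k0 j w] at h2
    split_ifs at h2 <;> omega

theorem k7_end_Cs (T : Tree c L0) (h1 : 100 ≤ L0) (h : L0 < l) (hc : 2 * c ≤ l) {j : Fin 3}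
    {ε : ℝ} {ze : Wd → ℝ} (hE : k7_End T l j ε ze) (w : Wd) {a : ℝ}
    (ha : (a : ℂ) = T.EE w l (ze w)) : a ∈ Cs l := by
  intro n
  obtain ⟨w', h2, h3⟩ := k7_end_iter T hE n w
  rw [← h2] at ha
  have := hE.ab w'
  exact k7_hist T h1 h hc w'.1 w'.2 (ze w') a (by linarith) ha n (by
    show n ≤ T.kk w' + 1
    omega)

/-- position of the end point and of the other children -/
theorem k7_end_pos (T : Tree c L0) (h1 : 100 ≤ L0) (h : L0 < l) {j : Fin 3} {ε : ℝ} {ze : Wd → ℝ}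
    (hE : k7_End T l j ε ze) (w : Wd) : |T.oo w * ze w + ε / 2| ≤ 1 / 25 := by
  have h2 := hE.ab (ch j w)
  have h3 := k7_zz T h1 h j w (z := (ze (ch j w) : ℂ)) (by
    rw [Complex.norm_real, Real.norm_eq_abs]; linarith)
  rw [← hE.eq w, ← Complex.ofReal_sub, Complex.norm_real, Real.norm_eq_abs] at h3
  have h4 := k7_small (l := l) (by linarith)
  have ho := (T.sta w).oo
  have hj : (((j : ℕ) : ℝ) - 1) / 2 = -ε / 2 := by
    rcases hE.jj with ⟨rfl, rfl⟩ | ⟨rfl, rfl⟩ <;> norm_num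
  rw [hj] at h3
  refine le_trans (le_of_eq ?_) (le_trans h3 h4)
  rcases ho with ho | ho <;> rw [ho]
  · congr 1; ring
  · rw [← abs_neg]
    congr 1; ring

theorem k7_child_pos (T : Tree c L0) (h1 : 100 ≤ L0) (h : L0 < l) (i : Fin 3) (w : Wd)
    {z z' : ℝ} (hz' : |z'| ≤ 1) (he : (z : ℂ) = T.zz i w l z') :
    |T.oo w * z - (((i : ℕ) : ℝ) - 1) / 2| ≤ 1 / 25 := by
  have h3 := k7_zz T h1 h i w (z := (z' : ℂ)) (by
    rw [Complex.norm_real, Real.norm_eq_abs]; linarith)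
  rw [← he, ← Complex.ofReal_sub, Complex.norm_real, Real.norm_eq_abs] at h3
  have h4 := k7_small (l := l) (by linarith)
  have ho := (T.sta w).oo
  refine le_trans (le_of_eq ?_) (le_trans h3 h4)
  rcases ho with ho | ho <;> rw [ho]
  · congr 1; ring
  · rw [← abs_neg]
    congr 1; ring

/-- order in a band -/
theorem k7_order (T : Tree c L0) (h1 : 100 ≤ L0) (h : L0 < l) (w : Wd) {z z' x x' : ℝ}
    (hz : |z| ≤ 1) (hz' : |z'| ≤ 1) (hx : (x : ℂ) = T.EE w l z) (hx' : (x' : ℂ) = T.EE w l z')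
    (hlt : T.oo w * z < T.oo w * z') : x < x' := by
  have hP := (T.sta w).toPre
  have ex : (T.EE w l z).re = x := by rw [← hx, Complex.ofReal_re]
  have ex' : (T.EE w l z').re = x' := by rw [← hx', Complex.ofReal_re]
  rcases hP.oo with ho | ho
  · rw [ho] at hlt
    have := k7_mono hP h1 h hz hz' (by linarith)
    rw [ho, ex, ex'] at this
    linarith
  · rw [ho] at hlt
    have := k7_mono hP h1 h hz' hz (by linarith)
    rw [ho, ex, ex'] at this
    linarith

/-- `K5` at one coupling -/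
def k7_Cov (T : Tree c L0) (l : ℝ) : Prop :=
  ∀ x : ℝ, x ∈ Cs l → ∀ (w : Wd) (z : ℝ), |z| ≤ 1 → (x : ℂ) = T.EE w l z →
    ∃ (i : Fin 3) (z' : ℝ), |z'| ≤ 1 ∧ (z : ℂ) = T.zz i w l z'

theorem k7_hull (T : Tree c L0) (h1 : 100 ≤ L0) (h : L0 < l) (hcov : k7_Cov T l)
    {j : Fin 3} {ε : ℝ} {ze : Wd → ℝ} (hE : k7_End T l j ε ze) (m : ℕ) :
    ∀ (w : Wd) (a x z : ℝ), x ∈ Cs l → |z| ≤ 1 → (x : ℂ) = T.EE w l z →
      (a : ℂ) = T.EE w l (ze w) → 0 < ε * (x - a) ∨ |z - ze w| ≤ 2 * (1 / 2) ^ m := by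
  induction m with
  | zero =>
    intro w a x z _ hz _ _
    right
    have := hE.ab w
    rw [abs_le] at *
    constructor <;> norm_num <;> linarith [hz.1, hz.2, this.1, this.2]
  | succ m ih =>
    intro w a x z hxC hz hx ha
    obtain ⟨i, z', hz', he⟩ := hcov x hxC w z hz hx
    by_cases hij : i = j
    · subst hij
      have hx' : (x : ℂ) = T.EE (ch i w) l z' := by
        rw [T.E0 i w]
        change (x : ℂ) = T.EE w l (T.zz i w l z')
        rw [← he]; exact hx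
      have ha' : (a : ℂ) = T.EE (ch i w) l (ze (ch i w)) := by
        rw [k7_end_eq T hE w]; exact ha
      rcases ih (ch i w) a x z' hxC hz' hx' ha' with h2 | h2
      · exact Or.inl h2
      · right
        have h3 := hE.ab (ch i w)
        have h4 := hE.lip w (ze (ch i w)) z' (by linarith) hz'
        rw [← he, ← hE.eq w, ← Complex.ofReal_sub, Complex.norm_real, Real.norm_eq_abs] at h4
        calc |z - ze w| ≤ 1 / 2 * |z' - ze (ch i w)| := h4
          _ ≤ 1 / 2 * (2 * (1 / 2) ^ m) := mul_le_mul_of_nonneg_left h2 (by norm_num)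
          _ = 2 * (1 / 2) ^ (m + 1) := by rw [pow_succ]; ring
    · left
      have hp := k7_end_pos T h1 h hE w
      have hc := k7_child_pos T h1 h i w hz' he
      have hze : |ze w| ≤ 1 := by linarith [hE.ab w]
      rw [abs_le] at hp hc
      rcases hE.jj with ⟨rfl, rfl⟩ | ⟨rfl, rfl⟩
      · have hi : (1 : ℝ) ≤ ((i : ℕ) : ℝ) := by
          have : 1 ≤ (i : ℕ) := by
            by_contra hcon
            apply hij
            apply Fin.ext
            show (i : ℕ) = 0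
            omega
          exact_mod_cast this
        have := k7_order T h1 h w hze hz ha hx (by linarith [hp.1, hp.2, hc.1, hc.2])
        linarith
      · have hi : ((i : ℕ) : ℝ) ≤ 1 := by
          have h3 : (i : ℕ) < 3 := i.2
          have : (i : ℕ) ≤ 1 := by
            by_contra hcon
            apply hij
            apply Fin.ext
            show (i : ℕ) = 2
            omega
          exact_mod_cast this
        have := k7_order T h1 h w hz hze hx ha (by linarith [hp.1, hp.2, hc.1, hc.2])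
        linarith

theorem k7_hull' (T : Tree c L0) (h1 : 100 ≤ L0) (h : L0 < l) (hcov : k7_Cov T l)
    {j : Fin 3} {ε : ℝ} {ze : Wd → ℝ} (hE : k7_End T l j ε ze) (w : Wd) {a x z : ℝ}
    (hxC : x ∈ Cs l) (hz : |z| ≤ 1) (hx : (x : ℂ) = T.EE w l z)
    (ha : (a : ℂ) = T.EE w l (ze w)) : 0 ≤ ε * (x - a) := by
  by_cases hpos : 0 < ε * (x - a)
  · exact hpos.le
  · have h2 : ∀ m : ℕ, |z - ze w| ≤ 2 * (1 / 2) ^ m := fun m =>
      (k7_hull T h1 h hcov hE m w a x z hxC hz hx ha).resolve_left hpos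
    have h3 : |z - ze w| ≤ 0 := by
      have ht : Filter.Tendsto (fun m : ℕ => 2 * (1 / 2 : ℝ) ^ m) Filter.atTop (nhds (2 * 0)) :=
        (tendsto_pow_atTop_nhds_zero_of_lt_one (by norm_num) (by norm_num)).const_mul 2
      rw [mul_zero] at ht
      exact ge_of_tendsto' ht h2
    have h4 : z = ze w := by
      have := abs_eq_zero.mp (le_antisymm h3 (abs_nonneg _))
      linarith
    have h5 : x = a := by
      have : (x : ℂ) = (a : ℂ) := by rw [hx, ha, h4]
      exact_mod_cast this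
    rw [h5, sub_self, mul_zero]

end

theorem st_K7 (hK5 : ST_K5) : ST_K7 := by
  intro c c' hc hc'
  obtain ⟨L5, hL5, h5⟩ := hK5 c hc
  refine ⟨L5 + 100 + 2 * c, by linarith, ?_⟩
  intro L0 hL0 T U l hl w
  have h1 : 100 ≤ L0 := by linarith
  have h2 : 2 * c ≤ l := by linarith
  have hlp : 0 < l := by linarith
  have hom := k7_om h1 hl
  have hcov : k7_Cov T l := fun x hx => (h5 L0 (by linarith) T l hl x hx).2
  set zl : Wd → ℝ := fun w => (U.zl w l).re with hzl
  set zh : Wd → ℝ := fun w => (U.zh w l).re with hzh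
  have ezl : ∀ w, ((zl w : ℝ) : ℂ) = U.zl w l := by
    intro w
    apply Complex.ext
    · rfl
    · rw [U.re_l w l hom, Complex.ofReal_im]
  have ezh : ∀ w, ((zh w : ℝ) : ℂ) = U.zh w l := by
    intro w
    apply Complex.ext
    · rfl
    · rw [U.re_h w l hom, Complex.ofReal_im]
  have lip : ∀ f : ℂ → ℂ → ℂ, ∀ a : ℂ,
      DifferentiableOn ℂ (fun p : ℂ × ℂ => f p.1 p.2) (Dom L0) →
      (∀ z : ℂ, ‖z‖ < 2 → ‖f l z - a‖ ≤ 4 / l) → ∀ z z' : ℝ, |z| ≤ 1 → |z'| ≤ 1 →
      ‖f l z' - f l z‖ ≤ 1 / 2 * |z' - z| := by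
    intro f a hf hb z z' hz hz'
    have := k7_lip (l := l) (by linarith) (k7_slice h1 hl hf) hb
      (z := (z : ℂ)) (z' := (z' : ℂ)) (by rwa [Complex.norm_real, Real.norm_eq_abs])
      (by rwa [Complex.norm_real, Real.norm_eq_abs])
    rw [← Complex.ofReal_sub, Complex.norm_real, Real.norm_eq_abs] at this
    exact this
  have hE0 : k7_End T l 0 1 zl := by
    refine ⟨Or.inl ⟨rfl, rfl⟩, fun w => ?_, fun w => ?_, fun w => ?_⟩
    · have := U.nl w l hom
      rw [← ezl w, Complex.norm_real, Real.norm_eq_abs] at this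
      exact this
    · rw [ezl, ezl]; exact U.el w l hom
    · exact lip (T.zz 0 w) _ (T.ch0 w).sta.an_u (fun z hz => k7_zz T h1 hl 0 w hz)
  have hE2 : k7_End T l 2 (-1) zh := by
    refine ⟨Or.inr ⟨rfl, rfl⟩, fun w => ?_, fun w => ?_, fun w => ?_⟩
    · have := U.nh w l hom
      rw [← ezh w, Complex.norm_real, Real.norm_eq_abs] at this
      exact this
    · rw [ezh, ezh]; exact U.eh w l hom
    · exact lip (T.zz 2 w) _ (T.ch2 w).sta.an_u (fun z hz => k7_zz T h1 hl 2 w hz)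
  have hreal : ∀ z : ℝ, |z| ≤ 1 → (((T.EE w l z).re : ℝ) : ℂ) = T.EE w l z := by
    intro z hz
    apply Complex.ext
    · rfl
    · rw [(T.sta w).re_E l z (k7_domr h1 hl hz), Complex.ofReal_im]
  have hzl1 : |zl w| ≤ 1 := by linarith [hE0.ab w]
  have hzh1 : |zh w| ≤ 1 := by linarith [hE2.ab w]
  refine ⟨(T.EE w l (zl w)).re, (T.EE w l (zh w)).re, ?_, ?_, ?_, ?_, ?_, ?_⟩
  · rw [hreal _ hzl1, ezl]
  · rw [hreal _ hzh1, ezh]
  · have p0 := k7_end_pos T h1 hl hE0 w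
    have p2 := k7_end_pos T h1 hl hE2 w
    rw [abs_le] at p0 p2
    exact k7_order T h1 hl w hzl1 hzh1 (hreal _ hzl1) (hreal _ hzh1)
      (by linarith [p0.1, p0.2, p2.1, p2.2])
  · exact k7_end_Cs T h1 hl h2 hE0 w (hreal _ hzl1)
  · exact k7_end_Cs T h1 hl h2 hE2 w (hreal _ hzh1)
  · intro x z hxC hz hx
    have q0 := k7_hull' T h1 hl hcov hE0 w hxC hz hx (hreal _ hzl1)
    have q2 := k7_hull' T h1 hl hcov hE2 w hxC hz hx (hreal _ hzh1)
    constructor <;> linarith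

end Pool.Agent.Helper36.CV
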